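import Pool.Agent.H92.Zak2

set_option autoImplicit false
open MeasureTheory
open scoped Real

namespace Pool.Agent.Results.MP_bef260_an.NonFrame

/-- the Hermite function `h_n` -/
noncomputable def herm (n : ℕ) (t : ℝ) : ℝ :=
  (-1) ^ n * ((2 : ℝ) ^ (1 / 4 : ℝ) / √(n.factorial * (2 * π) ^ n * 2 ^ n)) * Real.exp (π * t ^ 2) *
    iteratedDeriv n (fun s : ℝ => Real.exp (-2 * π * s ^ 2)) t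

/-- `∑_γ |⟨f, π(γ) g⟩|²` -/
noncomputable def energy (g : ℝ → ℝ) (Γ : Set (ℝ × ℝ)) (f : ℝ → ℂ) : ENNReal :=
  ∑' γ : Γ, ‖∫ t, f t * (starRingEnd ℂ) (Complex.exp (2 * π * Complex.I * γ.1.2 * t) * g (t - γ.1.1))‖ₑ ^ 2

/-- the Gabor system `G(g, Γ)` is a frame for `L²(ℝ)` -/
def IsFrame (g : ℝ → ℝ) (Γ : Set (ℝ × ℝ)) : Prop :=
  ∃ A B : ℝ, 0 < A ∧ A ≤ B ∧ ∀ f : ℝ → ℂ, MemLp f 2 volume →
    ENNReal.ofReal A * ∫⁻ t, ‖f t‖ₑ ^ 2 ≤ energy g Γ f ∧ energy g Γ f ≤ ENNReal.ofReal B * ∫⁻ t, ‖f t‖ₑ ^ 2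

/-- the periodic configuration `⋃_{z ∈ Z} (z + Lℤ × L⁻¹ℤ)` -/
def config (L : ℝ) (Z : Finset (ℝ × ℝ)) : Set (ℝ × ℝ) :=
  {γ | ∃ z ∈ Z, ∃ j l : ℤ, γ = z + (j * L, l / L)}

theorem result : ∀ n : ℕ, ∃ (L : ℝ) (Z : Finset (ℝ × ℝ)), 0 < L ∧ Z.card = 2 * n + 1 ∧
    (∀ z ∈ Z, ∀ z' ∈ Z, ∀ j l : ℤ, z = z' + (j * L, l / L) → z = z') ∧
    (∃ δ : ℝ, 0 < δ ∧ ∀ γ ∈ config L Z, ∀ γ' ∈ config L Z, γ ≠ γ' → δ ≤ dist γ γ') ∧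
    ¬ IsFrame (herm n) (config L Z) := by
  intro n
  have hC : (-1) ^ n * ((2 : ℝ) ^ (1 / 4 : ℝ) / √(n.factorial * (2 * π) ^ n * 2 ^ n)) ≠ 0 := by positivity
  obtain ⟨h1, ⟨K, h2⟩, ⟨t, h3, h4⟩, h5⟩ := Pool.Agent.H92.Zak.hermite n hC (g := herm n) rfl
  obtain ⟨L, Z, a1, a2, a3, a4⟩ := Pool.Agent.H92.Zak.config h1 h2 h3 h4 h5
  refine ⟨L, Z, by linarith, a2, a3, Pool.Agent.H92.Zak.sep Z (by linarith), ?_⟩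
  rintro ⟨A, B, hA, -, h⟩
  obtain ⟨f, f1, f2⟩ := Pool.Agent.H92.Zak.not_frame h1 h2 a1 Z a4 hA
  exact absurd (h f f1).1 (not_le.2 f2)

end Pool.Agent.Results.MP_bef260_an.NonFrame
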